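import Mathlib

/-!
# `A(n)` does not exist for any `n` divisible by `4`
-/

namespace Pool.Agent.Results.MP_1d631c_nt.NoMultipleOfFour

open NumberTheorySymbols ZMod

/-- If every prime factor of `N` divides `u + v` and none divides `u`,
then the Jacobi symbol `(-(u v) / N)` is `1`. -/
theorem jacobi_one {u v : ℤ} {N : ℕ}
    (h : ∀ p : ℕ, p.Prime → p ∣ N → (p : ℤ) ∣ u + v ∧ ¬ (p : ℤ) ∣ u) :
    J(-(u * v) | N) = 1 := by
  unfold jacobiSym
  apply List.prod_eq_one
  intro t ht
  rw [List.mem_pmap] at ht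
  obtain ⟨p, hp, rfl⟩ := ht
  have hpp := Nat.prime_of_mem_primeFactorsList hp
  obtain ⟨h1, h2⟩ := h p hpp (Nat.dvd_of_mem_primeFactorsList hp)
  have : Fact p.Prime := ⟨hpp⟩
  have e : ((-(u * v) : ℤ) : ZMod p) = ((u : ZMod p)) ^ 2 := by
    have hv : ((u + v : ℤ) : ZMod p) = 0 := (ZMod.intCast_zmod_eq_zero_iff_dvd _ p).mpr h1
    push_cast at hv ⊢
    have : (v : ZMod p) = - u := by linear_combination hv
    rw [this]; ring
  have hu : (u : ZMod p) ≠ 0 := by
    intro h0
    exact h2 ((ZMod.intCast_zmod_eq_zero_iff_dvd _ p).mp h0)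
  have hne : ((-(u * v) : ℤ) : ZMod p) ≠ 0 := by
    rw [e]; exact pow_ne_zero 2 hu
  rw [legendreSym.eq_one_iff p hne, e]
  exact IsSquare.sq _

theorem recip {m n : ℕ} (hm : Odd m) (hn : Odd n) (hc : m.Coprime n) :
    J(m | n) * J(n | m) = (-1) ^ (m / 2 * (n / 2)) := by
  rw [jacobiSym.quadratic_reciprocity hm hn, mul_assoc, ← sq, jacobiSym.sq_one, mul_one]
  rw [Int.gcd_natCast_natCast]
  exact hc.symm

/-- The arithmetic heart: no coprime solution with `a` even. -/
theorem no_even {a b c : ℕ} (ha0 : 0 < a) (hb0 : 0 < b) (hc0 : 0 < c) (ha : Even a)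
    (hb : Odd b) (hc : Odd c) (hab : a.Coprime b) (hac : a.Coprime c) (hbc : b.Coprime c)
    (h8 : 8 ∣ a + b + c)
    (hp : ∀ p : ℕ, p.Prime → p ∣ a * b * c → p ∣ a + b + c) : False := by
  obtain ⟨k, a', ha', haeq⟩ := Nat.exists_eq_two_pow_mul_odd ha0.ne'
  have hk : 0 < k := by
    rcases Nat.eq_zero_or_pos k with rfl | h
    · simp only [pow_zero, one_mul] at haeq
      subst haeq
      exact absurd ha (Nat.not_even_iff_odd.mpr ha')
    · exact h
  have ha'a : a' ∣ a := ⟨2 ^ k, by rw [haeq]; ring⟩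
  have hab' : a'.Coprime b := Nat.Coprime.coprime_dvd_left ha'a hab
  have hac' : a'.Coprime c := Nat.Coprime.coprime_dvd_left ha'a hac
  -- three Jacobi symbols
  have J1 : J(-((b : ℤ) * c) | a') = 1 := by
    apply jacobi_one
    intro p pp hpa
    have hpa2 : p ∣ a := hpa.trans ha'a
    have h := hp p pp (by rw [mul_assoc]; exact hpa2.mul_right _)
    refine ⟨?_, ?_⟩
    · have : p ∣ b + c := by
        have h' : p ∣ a + (b + c) := by rwa [← add_assoc]
        exact (Nat.dvd_add_right hpa2).mp h'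
      exact_mod_cast this
    · intro hpb
      have hpb' : p ∣ b := by exact_mod_cast hpb
      exact pp.one_lt.ne' (Nat.dvd_one.mp (hab ▸ Nat.dvd_gcd hpa2 hpb'))
  have J2 : J(-((a : ℤ) * c) | b) = 1 := by
    apply jacobi_one
    intro p pp hpb
    have h := hp p pp (by rw [mul_right_comm]; exact hpb.mul_left _)
    refine ⟨?_, ?_⟩
    · have : p ∣ a + c := by
        have h' : p ∣ b + (a + c) := by
          have e : b + (a + c) = a + b + c := by ring
          rwa [e]
        exact (Nat.dvd_add_right hpb).mp h'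
      exact_mod_cast this
    · intro hpa
      have hpa' : p ∣ a := by exact_mod_cast hpa
      exact pp.one_lt.ne' (Nat.dvd_one.mp (hab ▸ Nat.dvd_gcd hpa' hpb))
  have J3 : J(-((a : ℤ) * b) | c) = 1 := by
    apply jacobi_one
    intro p pp hpc
    have h := hp p pp (hpc.mul_left _)
    refine ⟨?_, ?_⟩
    · have : p ∣ a + b := by
        have h' : p ∣ c + (a + b) := by
          have e : c + (a + b) = a + b + c := by ring
          rwa [e]
        exact (Nat.dvd_add_right hpc).mp h'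
      exact_mod_cast this
    · intro hpa
      have hpa' : p ∣ a := by exact_mod_cast hpa
      exact pp.one_lt.ne' (Nat.dvd_one.mp (hac ▸ Nat.dvd_gcd hpa' hpc))
  -- expand
  have E1 : J(-((b : ℤ) * c) | a') = χ₄ a' * (J(b | a') * J(c | a')) := by
    rw [neg_eq_neg_one_mul, jacobiSym.mul_left, jacobiSym.mul_left, jacobiSym.at_neg_one ha']
  have E2 : J(-((a : ℤ) * c) | b) = χ₄ b * (χ₈ b ^ k * J(a' | b) * J(c | b)) := by
    rw [neg_eq_neg_one_mul, jacobiSym.mul_left, jacobiSym.mul_left, jacobiSym.at_neg_one hb, haeq]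
    push_cast
    rw [jacobiSym.mul_left, jacobiSym.pow_left, jacobiSym.at_two hb]
  have E3 : J(-((a : ℤ) * b) | c) = χ₄ c * (χ₈ c ^ k * J(a' | c) * J(b | c)) := by
    rw [neg_eq_neg_one_mul, jacobiSym.mul_left, jacobiSym.mul_left, jacobiSym.at_neg_one hc, haeq]
    push_cast
    rw [jacobiSym.mul_left, jacobiSym.pow_left, jacobiSym.at_two hc]
  rw [E1] at J1
  rw [E2] at J2
  rw [E3] at J3
  have R1 := recip ha' hb hab'
  have R2 := recip ha' hc hac'
  have R3 := recip hb hc hbc
  have T : (χ₄ a' * χ₄ b * χ₄ c : ℤ) * (χ₈ b * χ₈ c) ^ k *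
      ((-1) ^ (a' / 2 * (b / 2)) * (-1) ^ (a' / 2 * (c / 2)) * (-1) ^ (b / 2 * (c / 2))) = 1 := by
    rw [← R1, ← R2, ← R3]
    calc _ = (χ₄ a' * (J(b | a') * J(c | a'))) * (χ₄ b * (χ₈ b ^ k * J(a' | b) * J(c | b))) *
        (χ₄ c * (χ₈ c ^ k * J(a' | c) * J(b | c))) := by ring
      _ = 1 := by rw [J1, J2, J3]; norm_num
  rw [χ₄_eq_neg_one_pow (Nat.odd_iff.mp ha'), χ₄_eq_neg_one_pow (Nat.odd_iff.mp hb),
    χ₄_eq_neg_one_pow (Nat.odd_iff.mp hc), ← pow_add, ← pow_add, ← pow_add, ← pow_add] at T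
  -- the value of `(χ₈ b * χ₈ c) ^ k`
  have hb8 : b % 8 = 1 ∨ b % 8 = 3 ∨ b % 8 = 5 ∨ b % 8 = 7 := by
    have := Nat.odd_iff.mp hb; omega
  have hc8 : c % 8 = 1 ∨ c % 8 = 3 ∨ c % 8 = 5 ∨ c % 8 = 7 := by
    have := Nat.odd_iff.mp hc; omega
  have v8 : ∀ n : ℕ, (χ₈ (n : ZMod 8) : ℤ) = χ₈ ((n % 8 : ℕ) : ZMod 8) := by
    intro n; rw [ZMod.natCast_mod]
  have w1 : (χ₈ ((1 : ℕ) : ZMod 8) : ℤ) = 1 := by decide
  have w3 : (χ₈ ((3 : ℕ) : ZMod 8) : ℤ) = -1 := by decide
  have w5 : (χ₈ ((5 : ℕ) : ZMod 8) : ℤ) = -1 := by decide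
  have w7 : (χ₈ ((7 : ℕ) : ZMod 8) : ℤ) = 1 := by decide
  -- parity bookkeeping
  have par : ∀ e : ℕ, ((-1 : ℤ)) ^ e = if e % 2 = 0 then 1 else -1 := by
    intro e
    split_ifs with h
    · exact Even.neg_one_pow (Nat.even_iff.mpr h)
    · exact Odd.neg_one_pow (Nat.odd_iff.mpr (by omega))
  obtain ⟨α, hα⟩ : ∃ α, α = a' / 2 := ⟨_, rfl⟩
  obtain ⟨β, hβ⟩ : ∃ β, β = b / 2 := ⟨_, rfl⟩
  obtain ⟨γ, hγ⟩ : ∃ γ, γ = c / 2 := ⟨_, rfl⟩
  rw [← hα, ← hβ, ← hγ] at T
  have ha'2 := Nat.odd_iff.mp ha'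
  have hmod : (α * β + α * γ + β * γ) % 2
      = ((α % 2) * (β % 2) + (α % 2) * (γ % 2) + (β % 2) * (γ % 2)) % 2 := by
    simp [Nat.add_mod, Nat.mul_mod]
  rw [par, par] at T
  rw [hmod] at T
  rcases Nat.lt_or_ge k 3 with hk3 | hk3
  · have hk12 : k = 1 ∨ k = 2 := by omega
    rcases hk12 with rfl | rfl
    · have ha2 : a = 2 * a' := by rw [haeq]; ring
      rw [pow_one, v8 b, v8 c] at T
      have hα2 : α % 2 = 0 ∨ α % 2 = 1 := by omega
      rcases hα2 with h0 | h0 <;>
      rcases hb8 with hb8 | hb8 | hb8 | hb8 <;> rcases hc8 with hc8 | hc8 | hc8 | hc8 <;>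
      first
      | (exfalso; omega)
      | (have hβ2 : β % 2 = 0 := by omega
         have hγ2 : γ % 2 = 0 := by omega
         have hs : (α + β + γ) % 2 = α % 2 := by omega
         rw [hb8, hc8, hs, hβ2, hγ2, h0] at T
         simp [w1, w3, w5, w7] at T)
      | (have hβ2 : β % 2 = 1 := by omega
         have hγ2 : γ % 2 = 1 := by omega
         have hs : (α + β + γ) % 2 = α % 2 := by omega
         rw [hb8, hc8, hs, hβ2, hγ2, h0] at T
         simp [w1, w3, w5, w7] at T)
    · have ha2 : a = 4 * a' := by rw [haeq]; ring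
      rw [v8 b, v8 c] at T
      have hα2 : α % 2 = 0 ∨ α % 2 = 1 := by omega
      rcases hα2 with h0 | h0 <;>
      rcases hb8 with hb8 | hb8 | hb8 | hb8 <;> rcases hc8 with hc8 | hc8 | hc8 | hc8 <;>
      first
      | (exfalso; omega)
      | (have hβ2 : β % 2 = 0 := by omega
         have hγ2 : γ % 2 = 1 := by omega
         have hs : (α + β + γ) % 2 = (α + 1) % 2 := by omega
         have hs' : (α + 1) % 2 = 1 - α % 2 := by omega
         rw [hb8, hc8, hs, hs', hβ2, hγ2, h0] at T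
         simp [w1, w3, w5, w7] at T)
      | (have hβ2 : β % 2 = 1 := by omega
         have hγ2 : γ % 2 = 0 := by omega
         have hs : (α + β + γ) % 2 = (α + 1) % 2 := by omega
         have hs' : (α + 1) % 2 = 1 - α % 2 := by omega
         rw [hb8, hc8, hs, hs', hβ2, hγ2, h0] at T
         simp [w1, w3, w5, w7] at T)
  · obtain ⟨j, rfl⟩ : ∃ j, k = j + 3 := ⟨k - 3, by omega⟩
    have ha2 : a = 8 * (2 ^ j * a') := by rw [haeq]; ring
    rw [v8 b, v8 c] at T
    have hα2 : α % 2 = 0 ∨ α % 2 = 1 := by omega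
    rcases hα2 with h0 | h0 <;>
    rcases hb8 with hb8 | hb8 | hb8 | hb8 <;> rcases hc8 with hc8 | hc8 | hc8 | hc8 <;>
    first
    | (exfalso; omega)
    | (have hβ2 : β % 2 = 0 := by omega
       have hγ2 : γ % 2 = 1 := by omega
       have hs : (α + β + γ) % 2 = (α + 1) % 2 := by omega
       have hs' : (α + 1) % 2 = 1 - α % 2 := by omega
       rw [hb8, hc8, hs, hs', hβ2, hγ2, h0] at T
       simp [w1, w3, w5, w7] at T)
    | (have hβ2 : β % 2 = 1 := by omega
       have hγ2 : γ % 2 = 0 := by omega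
       have hs : (α + β + γ) % 2 = (α + 1) % 2 := by omega
       have hs' : (α + 1) % 2 = 1 - α % 2 := by omega
       rw [hb8, hc8, hs, hs', hβ2, hγ2, h0] at T
       simp [w1, w3, w5, w7] at T)

/-- No positive integers `a, b, c, d` with `a + b + c = 4 m d` and `A a b c = d ^ 3`. -/
theorem no_int (m A : ℕ) : ∀ d a b c : ℕ, 0 < a → 0 < b → 0 < c → 0 < d →
    a + b + c = 4 * m * d → A * (a * b * c) = d ^ 3 → False := by
  intro d
  induction d using Nat.strong_induction_on with
  | _ d ih =>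
  intro a b c ha hb hc hd hs hA
  -- every prime factor of `a b c` divides `d`
  have hpd : ∀ p : ℕ, p.Prime → p ∣ a * b * c → p ∣ d := by
    intro p pp h
    exact pp.dvd_of_dvd_pow (hA ▸ h.mul_left A)
  -- reduction if two entries share a prime
  have red : ∀ p : ℕ, p.Prime → p ∣ a → p ∣ b → p ∣ c → False := by
    intro p pp h1 h2 h3
    have h4 : p ∣ d := hpd p pp (by rw [mul_assoc]; exact h1.mul_right _)
    obtain ⟨a1, rfl⟩ := h1
    obtain ⟨b1, rfl⟩ := h2
    obtain ⟨c1, rfl⟩ := h3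
    obtain ⟨d1, rfl⟩ := h4
    have hp0 : 0 < p := pp.pos
    have ha1 : 0 < a1 := Nat.pos_of_mul_pos_left ha |> fun _ => Nat.pos_of_ne_zero (by rintro rfl; simp at ha)
    have hb1 : 0 < b1 := Nat.pos_of_ne_zero (by rintro rfl; simp at hb)
    have hc1 : 0 < c1 := Nat.pos_of_ne_zero (by rintro rfl; simp at hc)
    have hd1 : 0 < d1 := Nat.pos_of_ne_zero (by rintro rfl; simp at hd)
    refine ih d1 ?_ a1 b1 c1 ha1 hb1 hc1 hd1 ?_ ?_
    · have := pp.two_le
      nlinarith
    · apply Nat.eq_of_mul_eq_mul_left hp0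
      linarith
    · apply Nat.eq_of_mul_eq_mul_left (pow_pos hp0 3)
      nlinarith
  have hsum : ∀ p : ℕ, p.Prime → p ∣ a * b * c → p ∣ a + b + c := by
    intro p pp h
    rw [hs]
    exact (hpd p pp h).mul_left _
  have hab : a.Coprime b := by
    by_contra h
    obtain ⟨p, pp, h1, h2⟩ := Nat.Prime.not_coprime_iff_dvd.mp h
    have h3 : p ∣ c := by
      have h' := hsum p pp (by rw [mul_assoc]; exact h1.mul_right _)
      exact (Nat.dvd_add_right (dvd_add h1 h2)).mp h'
    exact red p pp h1 h2 h3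
  have hac : a.Coprime c := by
    by_contra h
    obtain ⟨p, pp, h1, h2⟩ := Nat.Prime.not_coprime_iff_dvd.mp h
    have h3 : p ∣ b := by
      have h' := hsum p pp (by rw [mul_assoc]; exact h1.mul_right _)
      have e : a + b + c = (a + c) + b := by ring
      rw [e] at h'
      exact (Nat.dvd_add_right (dvd_add h1 h2)).mp h'
    exact red p pp h1 h3 h2
  have hbc : b.Coprime c := by
    by_contra h
    obtain ⟨p, pp, h1, h2⟩ := Nat.Prime.not_coprime_iff_dvd.mp h
    have h3 : p ∣ a := by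
      have h' := hsum p pp (h2.mul_left _)
      have e : a + b + c = (b + c) + a := by ring
      rw [e] at h'
      exact (Nat.dvd_add_right (dvd_add h1 h2)).mp h'
    exact red p pp h3 h1 h2
  -- exactly one entry is even, and then `8 ∣ a + b + c`
  have heven : ∀ t : ℕ, t ∣ a * b * c → Even t → 0 < t → 8 ∣ a + b + c := by
    intro t ht het _
    have h2 : 2 ∣ d := hpd 2 Nat.prime_two (het.two_dvd.trans ht)
    obtain ⟨d1, rfl⟩ := h2
    exact ⟨m * d1, by rw [hs]; ring⟩
  rcases Nat.even_or_odd a with hae | hao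
  · have hbo : Odd b := by
      by_contra h
      have hbe := Nat.not_odd_iff_even.mp h
      have : 2 ∣ Nat.gcd a b := Nat.dvd_gcd hae.two_dvd hbe.two_dvd
      rw [hab] at this; omega
    have hco : Odd c := by
      by_contra h
      have hce := Nat.not_odd_iff_even.mp h
      have : 2 ∣ Nat.gcd a c := Nat.dvd_gcd hae.two_dvd hce.two_dvd
      rw [hac] at this; omega
    exact no_even ha hb hc hae hbo hco hab hac hbc
      (heven a (by rw [mul_assoc]; exact Dvd.intro _ rfl) hae ha) hsum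
  · rcases Nat.even_or_odd b with hbe | hbo
    · have hco : Odd c := by
        by_contra h
        have hce := Nat.not_odd_iff_even.mp h
        have : 2 ∣ Nat.gcd b c := Nat.dvd_gcd hbe.two_dvd hce.two_dvd
        rw [hbc] at this; omega
      refine no_even hb ha hc hbe hao hco hab.symm hbc hac ?_ ?_
      · have := heven b (by rw [mul_right_comm]; exact Dvd.intro_left _ rfl) hbe hb
        have e : b + a + c = a + b + c := by ring
        rwa [e]
      · intro p pp h
        have e : b + a + c = a + b + c := by ring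
        have e' : b * a * c = a * b * c := by ring
        rw [e]; rw [e'] at h; exact hsum p pp h
    · rcases Nat.even_or_odd c with hce | hco
      · refine no_even hc ha hb hce hao hbo hac.symm hbc.symm hab ?_ ?_
        · have := heven c (Dvd.intro_left _ rfl) hce hc
          have e : c + a + b = a + b + c := by ring
          rwa [e]
        · intro p pp h
          have e : c + a + b = a + b + c := by ring
          have e' : c * a * b = a * b * c := by ring
          rw [e]; rw [e'] at h; exact hsum p pp h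
      · have h1 : Odd (a + b + c) := by
          have : Even (a + b) := hao.add_odd hbo
          exact this.add_odd hco
        rw [hs] at h1
        have h2 : Even (4 * m * d) := ⟨2 * m * d, by ring⟩
        exact (Nat.not_odd_iff_even.mpr h2) h1

theorem result : ∀ n : ℕ, 4 ∣ n → ∀ A : ℕ, 0 < A →
    ¬ ∃ x y z : ℚ, 0 < x ∧ 0 < y ∧ 0 < z ∧ (n : ℚ) = x + y + z ∧ x * y * z = 1 / (A : ℚ) := by
  rintro n ⟨m, rfl⟩ A hA ⟨x, y, z, hx, hy, hz, hsum, hprod⟩
  -- common denominator
  set D : ℕ := x.den * y.den * z.den with hD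
  have hDpos : 0 < D := by positivity
  set a : ℕ := x.num.toNat * (y.den * z.den) with ha
  set b : ℕ := y.num.toNat * (x.den * z.den) with hb
  set c : ℕ := z.num.toNat * (x.den * y.den) with hc
  have hxn : 0 < x.num := Rat.num_pos.mpr hx
  have hyn : 0 < y.num := Rat.num_pos.mpr hy
  have hzn : 0 < z.num := Rat.num_pos.mpr hz
  have tx : ((x.num.toNat : ℕ) : ℚ) = x * x.den := by
    rw [Rat.mul_den_eq_num]
    have : ((x.num.toNat : ℕ) : ℤ) = x.num := Int.toNat_of_nonneg hxn.le
    exact_mod_cast this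
  have ty : ((y.num.toNat : ℕ) : ℚ) = y * y.den := by
    rw [Rat.mul_den_eq_num]
    have : ((y.num.toNat : ℕ) : ℤ) = y.num := Int.toNat_of_nonneg hyn.le
    exact_mod_cast this
  have tz : ((z.num.toNat : ℕ) : ℚ) = z * z.den := by
    rw [Rat.mul_den_eq_num]
    have : ((z.num.toNat : ℕ) : ℤ) = z.num := Int.toNat_of_nonneg hzn.le
    exact_mod_cast this
  have eD : (D : ℚ) = x.den * y.den * z.den := by rw [hD]; push_cast; ring
  have ea : (a : ℚ) = x * D := by rw [ha, eD]; push_cast; rw [tx]; ring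
  have eb : (b : ℚ) = y * D := by rw [hb, eD]; push_cast; rw [ty]; ring
  have ec : (c : ℚ) = z * D := by rw [hc, eD]; push_cast; rw [tz]; ring
  have hDq : (0 : ℚ) < D := by exact_mod_cast hDpos
  have ha0 : 0 < a := by
    have : (0 : ℚ) < a := by rw [ea]; positivity
    exact_mod_cast this
  have hb0 : 0 < b := by
    have : (0 : ℚ) < b := by rw [eb]; positivity
    exact_mod_cast this
  have hc0 : 0 < c := by
    have : (0 : ℚ) < c := by rw [ec]; positivity
    exact_mod_cast this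
  have hAq : (A : ℚ) ≠ 0 := by positivity
  refine no_int m A D a b c ha0 hb0 hc0 hDpos ?_ ?_
  · have : ((a + b + c : ℕ) : ℚ) = ((4 * m * D : ℕ) : ℚ) := by
      push_cast at hsum ⊢
      rw [ea, eb, ec, hsum]; ring
    exact_mod_cast this
  · have : ((A * (a * b * c) : ℕ) : ℚ) = ((D ^ 3 : ℕ) : ℚ) := by
      push_cast
      rw [ea, eb, ec]
      have h1 : (A : ℚ) * (x * y * z) = 1 := by rw [hprod]; field_simp
      calc (A : ℚ) * (x * D * (y * D) * (z * D)) = (A * (x * y * z)) * D ^ 3 := by ring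
        _ = D ^ 3 := by rw [h1, one_mul]
    exact_mod_cast this

end Pool.Agent.Results.MP_1d631c_nt.NoMultipleOfFour
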